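import Pool.Agent.Helper67.NX2.DefsB

/-!
# Project NX2, Part B, module B15: decoupling residues and blocks
-/

set_option autoImplicit false

open Finset
open scoped BigOperators

namespace Pool.Agent.Helper67.NX2

open Pool.Agent.Helper57.NX

noncomputable section

/-- shift of a sum over an initial segment -/
private theorem fz_shift (g : ℕ → ℝ) (B : ℝ) (hg : ∀ x, |g x| ≤ B) (Z t : ℕ) :
    |∑ x ∈ range Z, g (x + t) - ∑ x ∈ range Z, g x| ≤ 2 * t * B := by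
  induction t with
  | zero => simp
  | succ t ih =>
    have h1 : ∑ x ∈ range Z, g (x + (t + 1)) =
        ∑ x ∈ range Z, g (x + t) + g (Z + t) - g t := by
      have h2 : ∑ x ∈ range (Z + 1), g (x + t) = ∑ x ∈ range Z, g (x + t) + g (Z + t) :=
        sum_range_succ _ _
      have h3 : ∑ x ∈ range (Z + 1), g (x + t) = ∑ x ∈ range Z, g (x + 1 + t) + g (0 + t) :=
        sum_range_succ' _ _
      have h4 : ∑ x ∈ range Z, g (x + (t + 1)) = ∑ x ∈ range Z, g (x + 1 + t) :=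
        sum_congr rfl fun x _ => by congr 1; ring
      rw [zero_add] at h3
      rw [h4]; linarith
    rw [h1]
    have h5 := abs_le.1 (hg (Z + t))
    have h6 := abs_le.1 (hg t)
    have h7 := abs_le.1 ih
    rw [abs_le]
    push_cast
    constructor <;> nlinarith [h5.1, h5.2, h6.1, h6.2, h7.1, h7.2]

/-- shift of a sum over an interval -/
private theorem fz_shift_Ico (g : ℕ → ℝ) (B : ℝ) (hg : ∀ x, |g x| ≤ B) (u T t : ℕ) :
    |∑ k ∈ Ico u (u + T), g (k + t) - ∑ k ∈ Ico u (u + T), g k| ≤ 2 * t * B := by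
  rw [Finset.sum_Ico_eq_sum_range, Finset.sum_Ico_eq_sum_range, Nat.add_sub_cancel_left]
  have := fz_shift (fun x => g (u + x)) B (fun x => hg _) T t
  simpa [add_assoc] using this

/-- number of `x` whose shifted residue is near the end -/
private theorem fz_count (a N c δ : ℕ) (ha : 0 < a) :
    ((range (a * N)).filter (fun x => a ≤ (x + c) % a + δ)).card ≤ N * δ := by
  have hper : Function.Periodic (fun y : ℕ => a ≤ y % a + δ) (a * N) := by
    intro y; simp [Nat.add_mul_mod_self_left]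
  have h1 : ((range (a * N)).filter (fun x => a ≤ (x + c) % a + δ)).card =
      ((Ico c (c + a * N)).filter (fun y => a ≤ y % a + δ)).card := by
    apply Finset.card_nbij' (fun x => x + c) (fun y => y - c)
    · intro x hx
      simp only [coe_filter, mem_range, Set.mem_ofPred_eq, mem_Ico] at hx ⊢
      exact ⟨⟨by omega, by omega⟩, hx.2⟩
    · intro y hy
      simp only [coe_filter, mem_range, Set.mem_ofPred_eq, mem_Ico] at hy ⊢
      obtain ⟨⟨h1, h2⟩, h3⟩ := hy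
      refine ⟨by omega, ?_⟩
      rwa [Nat.sub_add_cancel h1]
    · intro x hx
      simp
    · intro y hy
      simp only [coe_filter, Set.mem_ofPred_eq, mem_Ico] at hy
      exact Nat.sub_add_cancel hy.1.1
  rw [h1, Nat.filter_Ico_card_eq_of_periodic _ _ _ hper, Nat.count_eq_card_filter_range]
  calc ((range (a * N)).filter (fun y => a ≤ y % a + δ)).card
      ≤ ((range N) ×ˢ (Ico (a - δ) a)).card := by
        apply Finset.card_le_card_of_injOn (fun y => (y / a, y % a))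
        · intro y hy
          simp only [coe_filter, mem_range, Set.mem_ofPred_eq] at hy
          simp only [coe_product, coe_range, coe_Ico, Set.mem_prod, Set.mem_Iio, Set.mem_Ico]
          refine ⟨Nat.div_lt_of_lt_mul hy.1, ?_, Nat.mod_lt _ ha⟩
          omega
        · intro y _ y' _ h
          simp only [Prod.mk.injEq] at h
          rw [← Nat.div_add_mod y a, ← Nat.div_add_mod y' a, h.1, h.2]
    _ ≤ N * δ := by
        rw [card_product, card_range, Nat.card_Ico]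
        exact Nat.mul_le_mul_left _ (by omega)

/-- complete residue systems -/
private theorem fz_sum_zmod (M : ℕ) [NeZero M] (c : ℕ) (g : ZMod M → ℝ) :
    ∑ x ∈ range M, g ((c + x : ℕ) : ZMod M) = ∑ ρ : ZMod M, g ρ := by
  have h1 : ∀ g : ZMod M → ℝ, ∑ x ∈ range M, g ((x : ℕ) : ZMod M) = ∑ ρ : ZMod M, g ρ := by
    intro g
    apply Finset.sum_nbij' (fun x : ℕ => (x : ZMod M)) (fun ρ : ZMod M => ρ.val)
    · intro x _; exact mem_univ _
    · intro ρ _; exact mem_range.2 (ZMod.val_lt ρ)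
    · intro x hx
      simp only [ZMod.val_natCast]
      exact Nat.mod_eq_of_lt (mem_range.1 hx)
    · intro ρ _
      simp
    · intro x _
      rfl
  have h2 := h1 (fun ρ => g ((c : ZMod M) + ρ))
  have h3 : ∑ ρ : ZMod M, g ((c : ZMod M) + ρ) = ∑ ρ : ZMod M, g ρ :=
    Equiv.sum_comp (Equiv.addLeft (c : ZMod M)) g
  rw [← h3, ← h2]
  refine sum_congr rfl fun x _ => ?_
  push_cast
  rfl

private theorem fz_sh_cast {s : ℕ} (d : Fin s → ℕ) (M n : ℕ) (o : Option (Fin s)) :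
    ((sh d n o : ℕ) : ZMod M) = sh d (n : ZMod M) o := by
  cases o <;> simp [sh]

/-- the local form as an average over shifts -/
private theorem fz_lfm {s : ℕ} (d : Fin s → ℕ) (K M : ℕ) [NeZero M]
    (H : Option (Fin s) → ZMod M → ℝ) (x k : ℕ) :
    ∑ x' ∈ range M, ∑ k' ∈ range M, ∏ o, H o ((x + x' + sh d (K * (k + k')) o : ℕ) : ZMod M) =
      (M : ℝ) ^ 2 * lfm d K M H := by
  have hM : (M : ℝ) ≠ 0 := Nat.cast_ne_zero.2 (NeZero.ne M)
  have h1 : lfm d K M H =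
      (∑ ρ : ZMod M, (∑ κ : ZMod M, ∏ o, H o (ρ + sh d ((K : ZMod M) * κ) o)) / M) / M := by
    unfold lfm
    rw [Finset.expect_eq_sum_div_card]
    simp only [Finset.expect_eq_sum_div_card, card_univ, ZMod.card]
  have h2 : ∑ x' ∈ range M, ∑ k' ∈ range M,
      ∏ o, H o ((x + x' + sh d (K * (k + k')) o : ℕ) : ZMod M) =
      ∑ ρ : ZMod M, ∑ κ : ZMod M, ∏ o, H o (ρ + sh d ((K : ZMod M) * κ) o) := by
    rw [← fz_sum_zmod M x]
    refine sum_congr rfl fun x' _ => ?_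
    rw [← fz_sum_zmod M k]
    refine sum_congr rfl fun k' _ => ?_
    refine prod_congr rfl fun o _ => ?_
    congr 1
    rw [Nat.cast_add, fz_sh_cast]
    push_cast
    rfl
  rw [h1, h2, ← Finset.sum_div]
  field_simp

/-- blocks do not move -/
private theorem fz_block (a y0 y1 δ : ℕ) (h01 : y0 ≤ y1) (h1 : y1 ≤ y0 + δ)
    (hb : ¬ a ≤ y0 % a + δ) : y1 / a = y0 / a := by
  have ha : 0 < a := by omega
  obtain ⟨t, rfl⟩ := Nat.exists_eq_add_of_le h01
  have h2 : y0 % a + t < a := by omega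
  have h3 : y0 + t = a * (y0 / a) + (y0 % a + t) := by
    have := Nat.div_add_mod y0 a; omega
  rw [h3, Nat.mul_add_div ha, Nat.div_eq_of_lt h2, add_zero]

private theorem fz_sh_mono {s : ℕ} (d : Fin s → ℕ) {m n : ℕ} (h : m ≤ n) (o : Option (Fin s)) :
    (sh d m o : ℕ) ≤ sh d n o := by
  cases o with
  | none => simp [sh]
  | some i => simpa [sh] using Nat.pow_le_pow_left h (d i)

/-- product bound -/
private theorem fz_prod {ι : Type} [Fintype ι] (f : ι → ℝ) (V : ℝ) (n : ℕ)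
    (hn : Fintype.card ι = n) (hf : ∀ o, |f o| ≤ V) : |∏ o, f o| ≤ V ^ n := by
  rw [Finset.abs_prod]
  calc ∏ o, |f o| ≤ ∏ _o : ι, V := Finset.prod_le_prod (fun _ _ => abs_nonneg _) fun o _ => hf o
    _ = V ^ n := by rw [prod_const, card_univ, hn]

/-- the shift in the block -/
private def fz_dl {s : ℕ} (d : Fin s → ℕ) (K M k : ℕ) (o : Option (Fin s)) : ℕ :=
  M + (sh d (K * (k + M)) o - sh d (K * k) o)

/-- pointwise comparison -/
private theorem fz_point {s : ℕ} (d : Fin (s + 1) → ℕ) (K M : ℕ) [NeZero M] (V Γ : ℝ)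
    (hV : 0 ≤ V) (hΓ : 0 ≤ Γ) (F G : ℕ → ℝ) (b : Option (Fin (s + 1)) → ℕ)
    (hcell : ∀ o j ρ, |cell F M (b o) j ρ| ≤ V) (hG : ∀ x, |G x| ≤ V)
    (hGd : ∀ x t : ℕ, |G (x + t) - G x| ≤ V * t * Γ) (x k x' k' : ℕ) (hx' : x' < M)
    (hk' : k' < M) :
    |G (x + x') * ∏ o, Fm F M (b o) (x + x' + sh d (K * (k + k')) o) -
      G x * ∏ o, cell F M (b o) ((x + sh d (K * k) o) / 2 ^ (b o))
        ((x + x' + sh d (K * (k + k')) o : ℕ) : ZMod M)| ≤
    V * V ^ (s + 2) * (M * Γ) + 2 * (V * V ^ (s + 2)) *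
      ∑ o, (if 2 ^ (b o) ≤ (x + sh d (K * k) o) % 2 ^ (b o) + fz_dl d K M k o
        then (1 : ℝ) else 0) := by
  have hcard : Fintype.card (Option (Fin (s + 1))) = s + 2 := by simp
  have hP1 := fz_prod (fun o => Fm F M (b o) (x + x' + sh d (K * (k + k')) o)) V (s + 2) hcard
    (fun o => hcell _ _ _)
  have hP2 := fz_prod (fun o => cell F M (b o) ((x + sh d (K * k) o) / 2 ^ (b o))
    ((x + x' + sh d (K * (k + k')) o : ℕ) : ZMod M)) V (s + 2) hcard (fun o => hcell _ _ _)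
  have hB : 0 ≤ V * V ^ (s + 2) := by positivity
  have hind : ∀ o : Option (Fin (s + 1)), (0 : ℝ) ≤
      (if 2 ^ (b o) ≤ (x + sh d (K * k) o) % 2 ^ (b o) + fz_dl d K M k o
        then (1 : ℝ) else 0) := fun o => by split_ifs <;> norm_num
  by_cases hbad : ∃ o, 2 ^ (b o) ≤ (x + sh d (K * k) o) % 2 ^ (b o) + fz_dl d K M k o
  · obtain ⟨o, ho⟩ := hbad
    have h1 : (1 : ℝ) ≤ ∑ o, (if 2 ^ (b o) ≤ (x + sh d (K * k) o) % 2 ^ (b o) + fz_dl d K M k o
        then (1 : ℝ) else 0) := by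
      have := Finset.single_le_sum (f := fun o =>
        (if 2 ^ (b o) ≤ (x + sh d (K * k) o) % 2 ^ (b o) + fz_dl d K M k o
        then (1 : ℝ) else 0)) (fun o _ => hind o) (mem_univ o)
      simpa [ho] using this
    have h2 : |G (x + x') * ∏ o, Fm F M (b o) (x + x' + sh d (K * (k + k')) o)| ≤
        V * V ^ (s + 2) := by
      rw [abs_mul]; exact mul_le_mul (hG _) hP1 (abs_nonneg _) hV
    have h3 : |G x * ∏ o, cell F M (b o) ((x + sh d (K * k) o) / 2 ^ (b o))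
        ((x + x' + sh d (K * (k + k')) o : ℕ) : ZMod M)| ≤ V * V ^ (s + 2) := by
      rw [abs_mul]; exact mul_le_mul (hG _) hP2 (abs_nonneg _) hV
    have h4 := abs_sub (G (x + x') * ∏ o, Fm F M (b o) (x + x' + sh d (K * (k + k')) o))
      (G x * ∏ o, cell F M (b o) ((x + sh d (K * k) o) / 2 ^ (b o))
        ((x + x' + sh d (K * (k + k')) o : ℕ) : ZMod M))
    have h5 : 0 ≤ V * V ^ (s + 2) * (M * Γ) := by positivity
    nlinarith
  · push Not at hbad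
    have hsame : ∀ o, Fm F M (b o) (x + x' + sh d (K * (k + k')) o) =
        cell F M (b o) ((x + sh d (K * k) o) / 2 ^ (b o))
        ((x + x' + sh d (K * (k + k')) o : ℕ) : ZMod M) := by
      intro o
      unfold Fm
      congr 1
      have hm1 : (sh d (K * k) o : ℕ) ≤ sh d (K * (k + k')) o :=
        fz_sh_mono d (Nat.mul_le_mul_left _ (by omega)) o
      have hm2 : (sh d (K * (k + k')) o : ℕ) ≤ sh d (K * (k + M)) o :=
        fz_sh_mono d (Nat.mul_le_mul_left _ (by omega)) o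
      have hd := hbad o
      unfold fz_dl at hd
      exact fz_block (2 ^ (b o)) (x + sh d (K * k) o) (x + x' + sh d (K * (k + k')) o)
        (M + (sh d (K * (k + M)) o - sh d (K * k) o)) (by omega) (by omega) (by omega)
    rw [prod_congr rfl fun o _ => hsame o, ← sub_mul, abs_mul]
    have h1 : |G (x + x') - G x| ≤ V * (M * Γ) := by
      refine (hGd x x').trans ?_
      rw [mul_assoc]
      have : (x' : ℝ) ≤ M := by exact_mod_cast hx'.le
      gcongr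
    have h2 := mul_le_mul h1 hP2 (abs_nonneg _) (by positivity)
    have h3 : 0 ≤ 2 * (V * V ^ (s + 2)) *
      ∑ o, (if 2 ^ (b o) ≤ (x + sh d (K * k) o) % 2 ^ (b o) + fz_dl d K M k o
        then (1 : ℝ) else 0) := mul_nonneg (by positivity) (sum_nonneg fun o _ => hind o)
    nlinarith

/-- number of bad `x` -/
private theorem fz_bad {s : ℕ} (d : Fin (s + 1) → ℕ) (K M k z : ℕ)
    (b : Option (Fin (s + 1)) → ℕ) (hb : ∀ o, b o ≤ z) (η : ℝ)
    (hη : ∀ o, (fz_dl d K M k o : ℝ) / 2 ^ (b o) ≤ η) :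
    ∑ x ∈ range (2 ^ z), ∑ o, (if 2 ^ (b o) ≤ (x + sh d (K * k) o) % 2 ^ (b o) + fz_dl d K M k o
        then (1 : ℝ) else 0) ≤ 2 ^ z * ((s + 2) * η) := by
  rw [sum_comm]
  have h1 : ∀ o : Option (Fin (s + 1)), ∑ x ∈ range (2 ^ z),
      (if 2 ^ (b o) ≤ (x + sh d (K * k) o) % 2 ^ (b o) + fz_dl d K M k o
        then (1 : ℝ) else 0) ≤ 2 ^ z * η := by
    intro o
    rw [← Finset.sum_filter, sum_const, nsmul_eq_mul, mul_one]
    have h2 := fz_count (2 ^ (b o)) (2 ^ (z - b o)) (sh d (K * k) o) (fz_dl d K M k o)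
      (by positivity)
    rw [← pow_add, Nat.add_sub_cancel' (hb o)] at h2
    have h3 : (((range (2 ^ z)).filter (fun x => 2 ^ (b o) ≤ (x + sh d (K * k) o) % 2 ^ (b o) +
        fz_dl d K M k o)).card : ℝ) ≤ 2 ^ (z - b o) * (fz_dl d K M k o : ℝ) := by
      exact_mod_cast h2
    refine h3.trans ?_
    have h4 : (2 : ℝ) ^ z = 2 ^ (z - b o) * 2 ^ (b o) := by
      rw [← pow_add, Nat.sub_add_cancel (hb o)]
    have h5 := hη o
    rw [div_le_iff₀ (by positivity)] at h5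
    rw [h4, mul_assoc]
    refine mul_le_mul_of_nonneg_left ?_ (by positivity)
    linarith
  refine (sum_le_sum fun o _ => h1 o).trans (le_of_eq ?_)
  rw [sum_const, card_univ, nsmul_eq_mul]
  simp only [Fintype.card_option, Fintype.card_fin]
  push_cast
  ring

/-- the quantitative comparison -/
private theorem fz_main {s : ℕ} (d : Fin (s + 1) → ℕ) (K M u T z : ℕ) [NeZero M] (V Γ η : ℝ)
    (hV : 0 ≤ V) (hΓ : 0 ≤ Γ) (hT : 0 < T) (F G : ℕ → ℝ) (b : Option (Fin (s + 1)) → ℕ)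
    (hcell : ∀ o j ρ, |cell F M (b o) j ρ| ≤ V) (hG : ∀ x, |G x| ≤ V)
    (hGd : ∀ x t : ℕ, |G (x + t) - G x| ≤ V * t * Γ) (hb : ∀ o, b o ≤ z)
    (hη : ∀ k ∈ Ico u (u + T), ∀ o, (fz_dl d K M k o : ℝ) / 2 ^ (b o) ≤ η) :
    |nform d K u T (2 ^ z) G (fun o => Fm F M (b o)) -
      𝔼 k ∈ Ico u (u + T), (∑ x ∈ range (2 ^ z), G x *
        lfm d K M (fun o => cell F M (b o) ((x + sh d (K * k) o) / 2 ^ (b o)))) / 2 ^ z| ≤
    2 * M * (V * V ^ (s + 2)) / T + 2 * M * (V * V ^ (s + 2)) / 2 ^ z +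
      V * V ^ (s + 2) * (M * Γ) + 2 * (V * V ^ (s + 2)) * ((s + 2) * η) := by
  set B : ℝ := V * V ^ (s + 2) with hBdef
  have hB0 : 0 ≤ B := by positivity
  have hM0 : (0 : ℝ) < M := Nat.cast_pos.2 (Nat.pos_of_ne_zero (NeZero.ne M))
  have hT0 : (0 : ℝ) < T := Nat.cast_pos.2 hT
  have hZ0 : (0 : ℝ) < 2 ^ z := by positivity
  have hcard : Fintype.card (Option (Fin (s + 1))) = s + 2 := by simp
  set Φ : ℕ → ℕ → ℝ := fun x k => G x * ∏ o, Fm F M (b o) (x + sh d (K * k) o) with hΦdef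
  have hΦ : ∀ x k, |Φ x k| ≤ B := by
    intro x k
    rw [hΦdef, abs_mul]
    exact mul_le_mul (hG _) (fz_prod _ V (s + 2) hcard fun o => hcell _ _ _) (abs_nonneg _) hV
  set Ψ : ℕ → ℕ → ℝ := fun x k => G x *
    lfm d K M (fun o => cell F M (b o) ((x + sh d (K * k) o) / 2 ^ (b o))) with hΨdef
  set Φ' : ℕ → ℕ → ℕ → ℕ → ℝ := fun x k x' k' => G x *
    ∏ o, cell F M (b o) ((x + sh d (K * k) o) / 2 ^ (b o))
        ((x + x' + sh d (K * (k + k')) o : ℕ) : ZMod M) with hΦ'def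
  have hexact : ∀ x k, ∑ x' ∈ range M, ∑ k' ∈ range M, Φ' x k x' k' = (M : ℝ) ^ 2 * Ψ x k := by
    intro x k
    simp only [hΦ'def, hΨdef, ← Finset.mul_sum]
    rw [fz_lfm d K M (fun o => cell F M (b o) ((x + sh d (K * k) o) / 2 ^ (b o))) x k]
    ring
  set S0 : ℝ := ∑ k ∈ Ico u (u + T), ∑ x ∈ range (2 ^ z), Φ x k with hS0
  set S1 : ℝ := ∑ k ∈ Ico u (u + T), ∑ x ∈ range (2 ^ z), Ψ x k with hS1
  -- first comparison
  have hA : ∀ x' ∈ range M, ∀ k' ∈ range M,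
      |∑ k ∈ Ico u (u + T), ∑ x ∈ range (2 ^ z), Φ (x + x') (k + k') - S0| ≤
        2 * M * B * T + 2 * M * B * 2 ^ z := by
    intro x' hx' k' hk'
    have hx'M : (x' : ℝ) ≤ M := by exact_mod_cast (mem_range.1 hx').le
    have hk'M : (k' : ℝ) ≤ M := by exact_mod_cast (mem_range.1 hk').le
    have h1 : |∑ k ∈ Ico u (u + T), ∑ x ∈ range (2 ^ z), Φ (x + x') (k + k') -
        ∑ k ∈ Ico u (u + T), ∑ x ∈ range (2 ^ z), Φ x (k + k')| ≤ 2 * M * B * T := by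
      rw [← Finset.sum_sub_distrib]
      refine (Finset.abs_sum_le_sum_abs _ _).trans ?_
      have h2 : ∀ k ∈ Ico u (u + T), |∑ x ∈ range (2 ^ z), Φ (x + x') (k + k') -
          ∑ x ∈ range (2 ^ z), Φ x (k + k')| ≤ 2 * M * B := by
        intro k _
        refine (fz_shift (fun x => Φ x (k + k')) B (fun x => hΦ _ _) (2 ^ z) x').trans ?_
        gcongr
      refine (sum_le_sum h2).trans (le_of_eq ?_)
      rw [sum_const, Nat.card_Ico, nsmul_eq_mul, Nat.add_sub_cancel_left]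
      ring
    have h3 : |∑ k ∈ Ico u (u + T), ∑ x ∈ range (2 ^ z), Φ x (k + k') - S0| ≤
        2 * M * B * 2 ^ z := by
      have h4 : ∀ k, |∑ x ∈ range (2 ^ z), Φ x k| ≤ 2 ^ z * B := by
        intro k
        refine (Finset.abs_sum_le_sum_abs _ _).trans ?_
        refine (sum_le_sum fun x _ => hΦ x k).trans (le_of_eq ?_)
        rw [sum_const, card_range, nsmul_eq_mul]
        push_cast
        ring
      refine (fz_shift_Ico (fun k => ∑ x ∈ range (2 ^ z), Φ x k) (2 ^ z * B) h4 u T k').trans ?_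
      calc 2 * (k' : ℝ) * (2 ^ z * B) ≤ 2 * M * (2 ^ z * B) := by gcongr
        _ = 2 * M * B * 2 ^ z := by ring
    calc |∑ k ∈ Ico u (u + T), ∑ x ∈ range (2 ^ z), Φ (x + x') (k + k') - S0|
        ≤ |∑ k ∈ Ico u (u + T), ∑ x ∈ range (2 ^ z), Φ (x + x') (k + k') -
        ∑ k ∈ Ico u (u + T), ∑ x ∈ range (2 ^ z), Φ x (k + k')| +
        |∑ k ∈ Ico u (u + T), ∑ x ∈ range (2 ^ z), Φ x (k + k') - S0| := abs_sub_le _ _ _
      _ ≤ _ := add_le_add h1 h3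
  -- second comparison
  have hC : ∀ x' ∈ range M, ∀ k' ∈ range M,
      |∑ k ∈ Ico u (u + T), ∑ x ∈ range (2 ^ z), Φ (x + x') (k + k') -
        ∑ k ∈ Ico u (u + T), ∑ x ∈ range (2 ^ z), Φ' x k x' k'| ≤
        T * (2 ^ z * (B * (M * Γ)) + 2 * B * (2 ^ z * ((s + 2) * η))) := by
    intro x' hx' k' hk'
    rw [← Finset.sum_sub_distrib]
    refine (Finset.abs_sum_le_sum_abs _ _).trans ?_
    have h2 : ∀ k ∈ Ico u (u + T), |∑ x ∈ range (2 ^ z), Φ (x + x') (k + k') -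
          ∑ x ∈ range (2 ^ z), Φ' x k x' k'| ≤
          2 ^ z * (B * (M * Γ)) + 2 * B * (2 ^ z * ((s + 2) * η)) := by
      intro k hk
      rw [← Finset.sum_sub_distrib]
      refine (Finset.abs_sum_le_sum_abs _ _).trans ?_
      refine (sum_le_sum fun x _ => fz_point d K M V Γ hV hΓ F G b hcell hG hGd x k x' k'
        (mem_range.1 hx') (mem_range.1 hk')).trans ?_
      rw [sum_add_distrib, sum_const, card_range, nsmul_eq_mul, ← Finset.mul_sum]
      push_cast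
      have h5 := fz_bad d K M k z b hb η (hη k hk)
      gcongr
    refine (sum_le_sum h2).trans (le_of_eq ?_)
    rw [sum_const, Nat.card_Ico, nsmul_eq_mul, Nat.add_sub_cancel_left]
  have hD : ∑ x' ∈ range M, ∑ k' ∈ range M,
      ∑ k ∈ Ico u (u + T), ∑ x ∈ range (2 ^ z), Φ' x k x' k' = (M : ℝ) ^ 2 * S1 := by
    rw [hS1, Finset.mul_sum]
    have h1 : ∀ x' : ℕ, ∑ k' ∈ range M,
      ∑ k ∈ Ico u (u + T), ∑ x ∈ range (2 ^ z), Φ' x k x' k' =
        ∑ k ∈ Ico u (u + T), ∑ x ∈ range (2 ^ z), ∑ k' ∈ range M, Φ' x k x' k' := by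
      intro x'
      rw [sum_comm]
      exact sum_congr rfl fun k _ => sum_comm
    rw [sum_congr rfl fun x' _ => h1 x', sum_comm]
    refine sum_congr rfl fun k _ => ?_
    rw [sum_comm, Finset.mul_sum]
    exact sum_congr rfl fun x _ => hexact x k
  have hE : |(M : ℝ) ^ 2 * S0 - (M : ℝ) ^ 2 * S1| ≤ (M : ℝ) ^ 2 *
      ((2 * M * B * T + 2 * M * B * 2 ^ z) +
        T * (2 ^ z * (B * (M * Γ)) + 2 * B * (2 ^ z * ((s + 2) * η)))) := by
    have h1 : (M : ℝ) ^ 2 * S0 = ∑ x' ∈ range M, ∑ k' ∈ range M, S0 := by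
      rw [sum_const, sum_const, card_range, nsmul_eq_mul, nsmul_eq_mul]; ring
    rw [h1, ← hD, ← Finset.sum_sub_distrib]
    refine (Finset.abs_sum_le_sum_abs _ _).trans ?_
    have h2 : ∀ x' ∈ range M, |∑ k' ∈ range M, S0 -
        ∑ k' ∈ range M, ∑ k ∈ Ico u (u + T), ∑ x ∈ range (2 ^ z), Φ' x k x' k'| ≤
        M * ((2 * M * B * T + 2 * M * B * 2 ^ z) +
        T * (2 ^ z * (B * (M * Γ)) + 2 * B * (2 ^ z * ((s + 2) * η)))) := by
      intro x' hx'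
      rw [← Finset.sum_sub_distrib]
      refine (Finset.abs_sum_le_sum_abs _ _).trans ?_
      have h3 : ∀ k' ∈ range M, |S0 -
          ∑ k ∈ Ico u (u + T), ∑ x ∈ range (2 ^ z), Φ' x k x' k'| ≤
          (2 * M * B * T + 2 * M * B * 2 ^ z) +
          T * (2 ^ z * (B * (M * Γ)) + 2 * B * (2 ^ z * ((s + 2) * η))) := by
        intro k' hk'
        have h4 := hA x' hx' k' hk'
        rw [abs_sub_comm] at h4
        exact (abs_sub_le _ _ _).trans (add_le_add h4 (hC x' hx' k' hk'))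
      refine (sum_le_sum h3).trans (le_of_eq ?_)
      rw [sum_const, card_range, nsmul_eq_mul]
    refine (sum_le_sum h2).trans (le_of_eq ?_)
    rw [sum_const, card_range, nsmul_eq_mul]
    ring
  have hF : |S0 - S1| ≤ (2 * M * B * T + 2 * M * B * 2 ^ z) +
        T * (2 ^ z * (B * (M * Γ)) + 2 * B * (2 ^ z * ((s + 2) * η))) := by
    rw [← mul_sub, abs_mul, abs_of_nonneg (by positivity : (0 : ℝ) ≤ (M : ℝ) ^ 2)] at hE
    exact le_of_mul_le_mul_left hE (by positivity)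
  have hG1 : nform d K u T (2 ^ z) G (fun o => Fm F M (b o)) = S0 / (T * 2 ^ z) := by
    unfold nform
    rw [Finset.expect_eq_sum_div_card, Nat.card_Ico, Nat.add_sub_cancel_left, ← Finset.sum_div,
      hS0]
    push_cast
    rw [div_div, mul_comm ((2 : ℝ) ^ z)]
  have hG2 : 𝔼 k ∈ Ico u (u + T), (∑ x ∈ range (2 ^ z), G x *
        lfm d K M (fun o => cell F M (b o) ((x + sh d (K * k) o) / 2 ^ (b o)))) / 2 ^ z =
      S1 / (T * 2 ^ z) := by
    rw [Finset.expect_eq_sum_div_card, Nat.card_Ico, Nat.add_sub_cancel_left, ← Finset.sum_div,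
      hS1]
    rw [div_div, mul_comm ((2 : ℝ) ^ z)]
  rw [hG1, hG2, ← sub_div, abs_div, abs_of_pos (by positivity : (0 : ℝ) < T * 2 ^ z),
    div_le_iff₀ (by positivity)]
  refine hF.trans (le_of_eq ?_)
  field_simp
  ring

private theorem fz_pow_sub (a m : ℝ) (ha : 0 ≤ a) (hm : 0 ≤ m) (n : ℕ) :
    (a + m) ^ (n + 1) ≤ a ^ (n + 1) + (n + 1) * m * (a + m) ^ n := by
  induction n with
  | zero => simp
  | succ n ih =>
    have h1 : (a + m) ^ (n + 1 + 1) ≤ (a ^ (n + 1) + (n + 1) * m * (a + m) ^ n) * (a + m) := by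
      rw [pow_succ]
      exact mul_le_mul_of_nonneg_right ih (by positivity)
    have h2 : a ^ (n + 1) * m ≤ (a + m) ^ (n + 1) * m :=
      mul_le_mul_of_nonneg_right (pow_le_pow_left₀ ha (by linarith) _) hm
    have h3 : (a ^ (n + 1) + (n + 1) * m * (a + m) ^ n) * (a + m) =
        a ^ (n + 1 + 1) + a ^ (n + 1) * m + (n + 1) * m * (a + m) ^ (n + 1) := by ring
    rw [h3] at h1
    push_cast
    nlinarith

/-- bound for the shift in a block -/
private theorem fz_eta {s : ℕ} (d : Fin (s + 1) → ℕ) (hd2 : ∀ i, 2 ≤ d i) (γ ε D : ℝ)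
    (hγ : 1 ≤ γ) (hε : 0 < ε) (hε' : ε ≤ 1 / 8) (hD : 1 ≤ D) (K M k : ℕ)
    (hK : 1 ≤ K) (hk : (k : ℝ) + M ≤ 3 * D) (b : Option (Fin (s + 1)) → ℕ)
    (hb : BlkLen d γ ε D b) (o : Option (Fin (s + 1))) :
    (fz_dl d K M k o : ℝ) / 2 ^ (b o) ≤
      4 * (1 + (∑ i, d i : ℕ) * 3 ^ (∑ i, d i)) * (M * (K : ℝ) ^ (∑ i, d i)) /
        D ^ (3 / 4 : ℝ) := by
  have hD0 : 0 < D := by linarith
  have hK1 : (1 : ℝ) ≤ K := by exact_mod_cast hK
  have hM0 : (0 : ℝ) ≤ M := Nat.cast_nonneg _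
  have hK2 : (1 : ℝ) ≤ (K : ℝ) ^ (∑ i, d i) := one_le_pow₀ hK1
  have hY : 0 < D ^ (3 / 4 : ℝ) := Real.rpow_pos_of_pos hD0 _
  have hE : (1 : ℝ) ≤ 1 + (∑ i, d i : ℕ) * 3 ^ (∑ i, d i) := by
    have : (0 : ℝ) ≤ (∑ i, d i : ℕ) * 3 ^ (∑ i, d i) := by positivity
    linarith
  cases o with
  | none =>
    have h1 : (fz_dl d K M k none : ℝ) = M := by simp [fz_dl, sh]
    rw [h1]
    have h2 : D ^ (3 / 4 : ℝ) / 4 ≤ 2 ^ (b none) := by
      refine le_trans ?_ hb.1.1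
      have : D ^ (3 / 4 : ℝ) ≤ D ^ (γ - 2 * ε) :=
        Real.rpow_le_rpow_of_exponent_le hD (by linarith)
      linarith
    rw [div_le_div_iff₀ (by positivity) hY]
    have h3 : (M : ℝ) * 1 ≤ M * (K : ℝ) ^ (∑ i, d i) := mul_le_mul_of_nonneg_left hK2 hM0
    calc (M : ℝ) * D ^ (3 / 4 : ℝ) ≤ M * (4 * 2 ^ (b none)) :=
          mul_le_mul_of_nonneg_left (by linarith) hM0
      _ = 4 * 1 * (M * 1) * 2 ^ (b none) := by ring
      _ ≤ 4 * (1 + (∑ i, d i : ℕ) * 3 ^ (∑ i, d i)) * (M * (K : ℝ) ^ (∑ i, d i)) *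
          2 ^ (b none) := by gcongr
  | some i =>
    obtain ⟨n, hn⟩ : ∃ n, d i = n + 1 := ⟨d i - 1, by have := hd2 i; omega⟩
    have hdi : d i ≤ ∑ i, d i := Finset.single_le_sum (fun _ _ => Nat.zero_le _) (mem_univ i)
    have hk0 : (0 : ℝ) ≤ k := Nat.cast_nonneg _
    -- the shift
    have h1 : (fz_dl d K M k (some i) : ℝ) ≤
        M + (K : ℝ) ^ (n + 1) * ((n + 1) * M * (3 * D) ^ n) := by
      have h2 : (sh d (K * k) (some i) : ℕ) ≤ sh d (K * (k + M)) (some i) :=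
        fz_sh_mono d (Nat.mul_le_mul_left _ (by omega)) _
      unfold fz_dl
      rw [Nat.cast_add, Nat.cast_sub h2]
      simp only [sh, hn, Nat.cast_pow, Nat.cast_mul, Nat.cast_add]
      rw [mul_pow, mul_pow, ← mul_sub]
      have h3 := fz_pow_sub (k : ℝ) M hk0 hM0 n
      have h4 : ((k : ℝ) + M) ^ n ≤ (3 * D) ^ n := pow_le_pow_left₀ (by positivity) hk n
      have h5 : ((k : ℝ) + M) ^ (n + 1) - (k : ℝ) ^ (n + 1) ≤ (n + 1) * M * (3 * D) ^ n := by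
        have : ((n : ℝ) + 1) * M * ((k : ℝ) + M) ^ n ≤ (n + 1) * M * (3 * D) ^ n := by gcongr
        linarith
      have := mul_le_mul_of_nonneg_left h5 (by positivity : (0 : ℝ) ≤ (K : ℝ) ^ (n + 1))
      linarith
    have h2 : D ^ n * D ^ (3 / 4 : ℝ) / 4 ≤ 2 ^ (b (some i)) := by
      refine le_trans ?_ (hb.2 i).1
      have : D ^ n * D ^ (3 / 4 : ℝ) ≤ D ^ ((d i : ℝ) - 2 * ε) := by
        rw [← Real.rpow_natCast D n, ← Real.rpow_add hD0]
        refine Real.rpow_le_rpow_of_exponent_le hD ?_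
        rw [hn]; push_cast; linarith
      linarith
    have hDn : (1 : ℝ) ≤ D ^ n := one_le_pow₀ hD
    rw [div_le_div_iff₀ (by positivity) hY]
    have hKn : (1 : ℝ) ≤ (K : ℝ) ^ (n + 1) := one_le_pow₀ hK1
    have hKd : (K : ℝ) ^ (n + 1) ≤ (K : ℝ) ^ (∑ i, d i) :=
      pow_le_pow_right₀ hK1 (by omega)
    have h3n : ((3 : ℝ)) ^ n ≤ 3 ^ (∑ i, d i) := pow_le_pow_right₀ (by norm_num) (by omega)
    have hn1 : (n : ℝ) + 1 ≤ (∑ i, d i : ℕ) := by
      have : n + 1 ≤ ∑ i, d i := by omega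
      exact_mod_cast this
    have h5 : (M : ℝ) + (K : ℝ) ^ (n + 1) * ((n + 1) * M * (3 * D) ^ n) ≤
        (1 + (∑ i, d i : ℕ) * 3 ^ (∑ i, d i)) * (M * (K : ℝ) ^ (∑ i, d i)) * D ^ n := by
      have h6 : (M : ℝ) ≤ M * (K : ℝ) ^ (∑ i, d i) * D ^ n := by
        have : (M : ℝ) * 1 * 1 ≤ M * (K : ℝ) ^ (∑ i, d i) * D ^ n := by gcongr
        linarith
      have h7 : (K : ℝ) ^ (n + 1) * ((n + 1) * M * (3 * D) ^ n) ≤
          (∑ i, d i : ℕ) * 3 ^ (∑ i, d i) * (M * (K : ℝ) ^ (∑ i, d i)) * D ^ n := by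
        calc (K : ℝ) ^ (n + 1) * ((n + 1) * M * (3 * D) ^ n)
            = ((n : ℝ) + 1) * 3 ^ n * (M * (K : ℝ) ^ (n + 1)) * D ^ n := by
              rw [mul_pow]; ring
          _ ≤ _ := by gcongr
      calc _ ≤ M * (K : ℝ) ^ (∑ i, d i) * D ^ n + (∑ i, d i : ℕ) * 3 ^ (∑ i, d i) *
            (M * (K : ℝ) ^ (∑ i, d i)) * D ^ n := add_le_add h6 h7
        _ = _ := by ring
    calc (fz_dl d K M k (some i) : ℝ) * D ^ (3 / 4 : ℝ)
        ≤ ((1 + (∑ i, d i : ℕ) * 3 ^ (∑ i, d i)) * (M * (K : ℝ) ^ (∑ i, d i)) * D ^ n) *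
          D ^ (3 / 4 : ℝ) := mul_le_mul_of_nonneg_right (h1.trans h5) hY.le
      _ = 4 * (1 + (∑ i, d i : ℕ) * 3 ^ (∑ i, d i)) * (M * (K : ℝ) ^ (∑ i, d i)) *
          (D ^ n * D ^ (3 / 4 : ℝ) / 4) := by ring
      _ ≤ _ := mul_le_mul_of_nonneg_left h2 (by positivity)

/-! ## B15 decoupling residues and blocks -/
theorem freeze (s : ℕ) (d : Fin (s + 1) → ℕ) (hd2 : ∀ i, 2 ≤ d i) (γ ε : ℝ) (hγ : 1 ≤ γ)
    (hγd : ∀ i, γ ≤ d i) (hε : 0 < ε) (hε' : ε ≤ 1 / 8) :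
    ∃ σ : ℝ, 0 < σ ∧ ∃ D0 : ℝ, ∀ (D V : ℝ) (K M u T z : ℕ) [NeZero M], D0 ≤ D → 1 ≤ K →
    (K : ℝ) ≤ D ^ σ → (M : ℝ) ≤ D ^ σ → 1 ≤ V → V ≤ D ^ σ → D ≤ u → (u : ℝ) + T ≤ 2 * D →
    D ^ (1 - ε) ≤ T → (∀ i, ((K : ℝ) * (3 * D)) ^ (d i) ≤ (2 : ℝ) ^ z) →
    ∀ (F G : ℕ → ℝ) (b : Option (Fin (s + 1)) → ℕ), BlkLen d γ ε D b → (∀ o, b o ≤ z) →
    (∀ o j ρ, |cell F M (b o) j ρ| ≤ V) → (∀ x, |G x| ≤ V) →
    (∀ x t : ℕ, |G (x + t) - G x| ≤ V * t / D ^ (γ - ε)) →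
    |nform d K u T (2 ^ z) G (fun o => Fm F M (b o)) -
      𝔼 k ∈ Ico u (u + T), (∑ x ∈ range (2 ^ z), G x *
        lfm d K M (fun o => cell F M (b o) ((x + sh d (K * k) o) / 2 ^ (b o)))) / 2 ^ z| ≤
      D ^ (-σ) := by
  set dm : ℕ := ∑ i, d i with hdm
  set E : ℝ := 1 + (dm : ℝ) * 3 ^ dm with hEdef
  have hE1 : 1 ≤ E := by
    have : (0 : ℝ) ≤ (dm : ℝ) * 3 ^ dm := by positivity
    rw [hEdef]; linarith
  set Cst : ℝ := 5 + 8 * (s + 2) * E with hCst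
  have hCst1 : 1 ≤ Cst := by
    have : (0 : ℝ) ≤ 8 * (s + 2) * E := by positivity
    rw [hCst]; linarith
  set σ : ℝ := 1 / (4 * (s + dm + 6)) with hσdef
  have hσ0 : 0 < σ := by rw [hσdef]; positivity
  have hσ1 : σ * (s + dm + 6) = 1 / 4 := by rw [hσdef]; field_simp
  have hσ4 : σ ≤ 1 / 4 := by
    have h1 : (0 : ℝ) ≤ s + dm := by positivity
    nlinarith
  refine ⟨σ, hσ0, Cst ^ 4, ?_⟩
  intro D V K M u T z _ hD hK hKD hMD hV hVD hu hT2 hT hz F G b hb hbz hcell hG hGd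
  have hD1 : 1 ≤ D := (one_le_pow₀ hCst1).trans hD
  have hD0 : 0 < D := by linarith
  have hM1 : (1 : ℝ) ≤ M := by exact_mod_cast Nat.one_le_iff_ne_zero.2 (NeZero.ne M)
  have hK1 : (1 : ℝ) ≤ K := by exact_mod_cast hK
  have hTpos : 0 < T := by
    have : (0 : ℝ) < T := lt_of_lt_of_le (Real.rpow_pos_of_pos hD0 _) hT
    exact_mod_cast this
  have hMD1 : (M : ℝ) ≤ D := by
    refine hMD.trans ?_
    calc D ^ σ ≤ D ^ (1 : ℝ) := Real.rpow_le_rpow_of_exponent_le hD1 (by linarith)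
      _ = D := Real.rpow_one D
  have hη : ∀ k ∈ Ico u (u + T), ∀ o, (fz_dl d K M k o : ℝ) / 2 ^ (b o) ≤
      4 * E * (M * (K : ℝ) ^ dm) / D ^ (3 / 4 : ℝ) := by
    intro k hk o
    have hk1 : (k : ℝ) ≤ u + T := by exact_mod_cast (mem_Ico.1 hk).2.le
    exact fz_eta d hd2 γ ε D hγ hε hε' hD1 K M k hK (by linarith) b hb o
  have hΓ : 0 ≤ 1 / D ^ (γ - ε) := by positivity
  have hmain := fz_main d K M u T z V (1 / D ^ (γ - ε))
    (4 * E * (M * (K : ℝ) ^ dm) / D ^ (3 / 4 : ℝ)) (by linarith) hΓ hTpos F G b hcell hG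
    (fun x t => by have := hGd x t; rwa [mul_one_div]) hbz hη
  refine hmain.trans ?_
  -- numerics
  have hY : 0 < D ^ (3 / 4 : ℝ) := Real.rpow_pos_of_pos hD0 _
  set B : ℝ := V * V ^ (s + 2) with hB
  have hB0 : 0 < B := by positivity
  set X : ℝ := B * (M * (K : ℝ) ^ dm) with hX
  have hX0 : 0 < X := by positivity
  have hBM : M * B ≤ X := by
    have h1 : (1 : ℝ) ≤ (K : ℝ) ^ dm := one_le_pow₀ hK1
    have h2 : M * B * 1 ≤ M * B * (K : ℝ) ^ dm := mul_le_mul_of_nonneg_left h1 (by positivity)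
    rw [hX]; linarith
  have hXD : X ≤ D ^ (1 / 4 : ℝ) := by
    have h1 : X ≤ (D ^ σ) ^ (s + dm + 4) := by
      calc X = V ^ (s + 3) * (M * (K : ℝ) ^ dm) := by rw [hX, hB]; ring
        _ ≤ (D ^ σ) ^ (s + 3) * (D ^ σ * (D ^ σ) ^ dm) := by gcongr
        _ = (D ^ σ) ^ (s + dm + 4) := by ring
    refine h1.trans ?_
    rw [← Real.rpow_natCast, ← Real.rpow_mul hD0.le]
    refine Real.rpow_le_rpow_of_exponent_le hD1 ?_
    push_cast
    nlinarith
  have hTY : D ^ (3 / 4 : ℝ) ≤ T :=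
    (Real.rpow_le_rpow_of_exponent_le hD1 (by linarith)).trans hT
  have hZY : D ^ (3 / 4 : ℝ) ≤ 2 ^ z := by
    refine le_trans ?_ (hz 0)
    have h1 : D ^ (3 / 4 : ℝ) ≤ D := by
      calc D ^ (3 / 4 : ℝ) ≤ D ^ (1 : ℝ) := Real.rpow_le_rpow_of_exponent_le hD1 (by norm_num)
        _ = D := Real.rpow_one D
    have h2 : D ≤ (K : ℝ) * (3 * D) := by nlinarith
    have h3 : (1 : ℝ) ≤ (K : ℝ) * (3 * D) := hD1.trans h2
    have h4 : ((K : ℝ) * (3 * D)) ^ 1 ≤ ((K : ℝ) * (3 * D)) ^ (d 0) :=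
      pow_le_pow_right₀ h3 (by have := hd2 0; omega)
    rw [pow_one] at h4
    linarith
  have hΓY : 1 / D ^ (γ - ε) ≤ 1 / D ^ (3 / 4 : ℝ) :=
    one_div_le_one_div_of_le hY (Real.rpow_le_rpow_of_exponent_le hD1 (by linarith))
  have t1 : 2 * M * B / T ≤ 2 * X / D ^ (3 / 4 : ℝ) := by
    rw [mul_assoc]
    exact div_le_div₀ (by positivity) (by linarith) hY hTY
  have t2 : 2 * M * B / 2 ^ z ≤ 2 * X / D ^ (3 / 4 : ℝ) := by
    rw [mul_assoc]
    exact div_le_div₀ (by positivity) (by linarith) hY hZY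
  have t3 : B * (M * (1 / D ^ (γ - ε))) ≤ X / D ^ (3 / 4 : ℝ) := by
    calc B * (M * (1 / D ^ (γ - ε))) = M * B * (1 / D ^ (γ - ε)) := by ring
      _ ≤ X * (1 / D ^ (3 / 4 : ℝ)) := mul_le_mul hBM hΓY hΓ hX0.le
      _ = _ := by ring
  have t4 : 2 * B * ((s + 2) * (4 * E * (M * (K : ℝ) ^ dm) / D ^ (3 / 4 : ℝ))) =
      8 * (s + 2) * E * X / D ^ (3 / 4 : ℝ) := by rw [hX]; ring
  have t5 : 2 * M * B / T + 2 * M * B / 2 ^ z + B * (M * (1 / D ^ (γ - ε))) +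
      2 * B * ((s + 2) * (4 * E * (M * (K : ℝ) ^ dm) / D ^ (3 / 4 : ℝ))) ≤
      Cst * X / D ^ (3 / 4 : ℝ) := by
    rw [t4]
    calc _ ≤ 2 * X / D ^ (3 / 4 : ℝ) + 2 * X / D ^ (3 / 4 : ℝ) + X / D ^ (3 / 4 : ℝ) +
          8 * (s + 2) * E * X / D ^ (3 / 4 : ℝ) := by linarith
      _ = Cst * X / D ^ (3 / 4 : ℝ) := by rw [hCst]; ring
  refine t5.trans ?_
  have hC4 : Cst ≤ D ^ (1 / 4 : ℝ) := by
    calc Cst = (Cst ^ 4) ^ (1 / 4 : ℝ) := by
          rw [← Real.rpow_natCast Cst 4, ← Real.rpow_mul (by linarith)]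
          norm_num
      _ ≤ D ^ (1 / 4 : ℝ) := Real.rpow_le_rpow (by positivity) hD (by norm_num)
  calc Cst * X / D ^ (3 / 4 : ℝ) ≤ D ^ (1 / 4 : ℝ) * D ^ (1 / 4 : ℝ) / D ^ (3 / 4 : ℝ) := by
        gcongr
    _ = D ^ (-(1 / 4) : ℝ) := by
        rw [← Real.rpow_add hD0, ← Real.rpow_sub hD0]; norm_num
    _ ≤ D ^ (-σ) := Real.rpow_le_rpow_of_exponent_le hD1 (by linarith)

end

end Pool.Agent.Helper67.NX2
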